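import Pool.Agent.Lib.lead.CXBase

namespace Pool.Agent.Results.MP_447f9a_lc.Hard
open Pool.Agent.Lib.CX Finset

/-- every induced subgraph has chromatic number equal to its clique number -/
def Perfect {V : Type} (G : SimpleGraph V) : Prop :=
  ∀ s : Set V, (G.induce s).chromaticNumber = (G.induce s).cliqueNum

/-- a skew partition into parts 0, 1 (no edges between them) and 2, 3 (all edges between them), each nonempty with at
least `n / c` vertices -/
def Balanced (c : ℚ) {n : ℕ} (G : SimpleGraph (Fin n)) : Prop :=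
  ∃ p : Fin n → Fin 4, (∀ i, ∃ v, p v = i) ∧ (∀ i, (n : ℚ) / c ≤ (univ.filter fun v => p v = i).card) ∧
    (∀ u v, p u = 0 → p v = 1 → ¬ G.Adj u v) ∧ ∀ u v, p u = 2 → p v = 3 → G.Adj u v

theorem perfect_of {V : Type} [Finite V] {G : SimpleGraph V} (h : G.Colorable 2) : Perfect G := fun s => by
  classical
  have h : (G.induce s).Colorable 2 := h.of_hom (SimpleGraph.Embedding.induce s).toHom
  generalize G.induce s = H at h
  refine le_antisymm (SimpleGraph.chromaticNumber_le_iff_colorable.2 ?_) SimpleGraph.cliqueNum_le_chromaticNumber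
  by_cases h1 : H = ⊥
  · rcases isEmpty_or_nonempty s with h2 | ⟨⟨v⟩⟩
    · exact SimpleGraph.Colorable.of_isEmpty _
    · refine (SimpleGraph.colorable_one_iff.2 h1).mono ?_
      simpa using SimpleGraph.IsClique.card_le_cliqueNum (G := H) (t := {v}) (tc := by simp)
  · obtain ⟨u, v, h2⟩ := SimpleGraph.ne_bot_iff_exists_adj.1 h1
    refine h.mono ?_
    simpa [h2.ne] using SimpleGraph.IsClique.card_le_cliqueNum (G := H) (t := {u, v}) (tc := by simp [h2])

theorem card_val {N : ℕ} (t : Finset ℕ) (h : ∀ x ∈ t, x < N) : (univ.filter fun i : Fin N => i.1 ∈ t).card = t.card := by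
  rw [← card_map Fin.valEmbedding]
  congr 1
  ext x
  simp only [mem_map, mem_filter, mem_univ, true_and, Fin.valEmbedding_apply]
  exact ⟨fun ⟨a, h, e⟩ => e ▸ h, fun hx => ⟨⟨x, h x hx⟩, hx, rfl⟩⟩

theorem bal_iff (c : ℚ) (hc : 4 ≤ c) (a : Gr) (K y : ℕ) (R : ℕ → ℕ → Prop) (hK : 0 < K) (hy : y ≤ 3 * K)
    (hn : a.n = c.num.toNat * K / c.den) (hR : ∀ u v : Fin a.n, a.G.Adj u v ↔ R u v ∨ R v u)
    (h1 : ∀ u v, R u v → u < y ∧ v < y) (h2 : ∀ u v w, R u v → ¬ R v w) :
    Balanced c a.G ↔ ∃ C D : Finset ℕ, K ≤ C.card ∧ K ≤ D.card ∧ ∀ u ∈ C, ∀ v ∈ D, R u v := by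
  have hc' : c = (c.num.toNat : ℚ) / c.den := by
    have : (0 : ℤ) ≤ c.num := Rat.num_nonneg.2 (by linarith)
    conv_lhs => rw [← Rat.num_div_den c, ← Int.toNat_of_nonneg this]
    rfl
  have hd : (0 : ℚ) < c.den := by exact_mod_cast c.den_pos
  have h4 : 4 * c.den ≤ c.num.toNat := by rw [hc', le_div_iff₀ hd] at hc; exact_mod_cast hc
  have hs : ∀ s : ℕ, (a.n : ℚ) / c ≤ s ↔ K ≤ s := fun s => by
    rw [div_le_iff₀ (by linarith), hc', ← mul_div_assoc, le_div_iff₀ hd, hn]
    norm_cast
    have h5 := Nat.div_mul_le_self (c.num.toNat * K) c.den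
    have h6 := Nat.lt_div_mul_add (a := c.num.toNat * K) c.den_pos
    constructor
    · intro h; by_contra h'; nlinarith [c.den_pos]
    · intro h; nlinarith
  have h5 : 4 * K ≤ a.n := by rw [hn, Nat.le_div_iff_mul_le c.den_pos]; nlinarith
  constructor
  · rintro ⟨p, p1, p2, -, p4⟩
    have e : ∀ i, K ≤ ((univ.filter fun v => p v = i).map Fin.valEmbedding).card := fun i => by
      rw [card_map]; exact (hs _).1 (p2 i)
    obtain ⟨u0, hu⟩ := p1 2
    obtain ⟨v0, hv⟩ := p1 3
    rcases (hR _ _).1 (p4 u0 v0 hu hv) with h | h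
    · refine ⟨_, _, e 2, e 3, ?_⟩
      simp only [mem_map, mem_filter, mem_univ, true_and]
      rintro _ ⟨u, a1, rfl⟩ _ ⟨v, a2, rfl⟩
      refine ((hR _ _).1 (p4 u v a1 a2)).resolve_right fun h' => ?_
      rcases (hR _ _).1 (p4 u v0 a1 hv) with h3 | h3
      · exact h2 _ _ _ h' h3
      · exact h2 _ _ _ h h3
    · refine ⟨_, _, e 3, e 2, ?_⟩
      simp only [mem_map, mem_filter, mem_univ, true_and]
      rintro _ ⟨v, a2, rfl⟩ _ ⟨u, a1, rfl⟩
      refine ((hR _ _).1 (p4 u v a1 a2)).resolve_left fun h' => ?_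
      rcases (hR _ _).1 (p4 u0 v hu a2) with h3 | h3
      · exact h2 _ _ _ h h3
      · exact h2 _ _ _ h' h3
  · rintro ⟨C0, D0, c0, d0, h0⟩
    obtain ⟨C, c1, c2⟩ := exists_subset_card_eq c0
    obtain ⟨D, d1, d2⟩ := exists_subset_card_eq d0
    have h : ∀ u ∈ C, ∀ v ∈ D, R u v := fun u hu v hv => h0 u (c1 hu) v (d1 hv)
    obtain ⟨u0, hu⟩ : C.Nonempty := card_pos.1 (by omega)
    obtain ⟨v0, hv⟩ : D.Nonempty := card_pos.1 (by omega)
    have cy : ∀ u ∈ C, u < y := fun u hu => (h1 _ _ (h u hu v0 hv)).1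
    have dy : ∀ v ∈ D, v < y := fun v hv => (h1 _ _ (h u0 hu v hv)).2
    have cd : ∀ u ∈ C, u ∉ D := fun u hu hu' => h2 _ _ _ (h u hu u hu') (h u hu u hu')
    let p : Fin a.n → Fin 4 := fun v => if v.1 ∈ Ico y (y + K) then 0 else if v.1 ∈ C then 2 else if v.1 ∈ D then 3 else 1
    have p0 : ∀ v, p v = 0 ↔ v.1 ∈ Ico y (y + K) := fun v => by simp only [p]; split_ifs <;> simp [*]
    have p2 : ∀ v, p v = 2 ↔ v.1 ∈ C := fun v => by
      have := cy v; simp only [p, mem_Ico]; split_ifs with a <;> simp [*]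
      exact fun h => by have := this h; omega
    have p3 : ∀ v, p v = 3 ↔ v.1 ∈ D := fun v => by
      have := cd v; have := dy v; simp only [p, mem_Ico]; split_ifs with a <;> simp [*]
      exact fun h => by have := this h; omega
    have k0 : (univ.filter fun v => p v = 0).card = K := by
      simp only [p0]; rw [card_val _ (by simp; omega)]; simp
    have k2 : (univ.filter fun v => p v = 2).card = K := by
      simp only [p2]; rw [card_val _ fun x hx => by have := cy x hx; omega, c2]
    have k3 : (univ.filter fun v => p v = 3).card = K := by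
      simp only [p3]; rw [card_val _ fun x hx => by have := dy x hx; omega, d2]
    have k : ∀ i, K ≤ (univ.filter fun v => p v = i).card := by
      have := card_eq_sum_card_fiberwise (f := p) (s := univ) (t := univ) (by simp)
      simp only [card_univ, Fintype.card_fin, Fin.sum_univ_four, k0, k2, k3] at this
      simp only [Fin.forall_fin_succ]
      exact ⟨k0.ge, by change K ≤ (univ.filter fun v => p v = 1).card; omega, k2.ge, k3.ge, by simp⟩
    refine ⟨p, fun i => ?_, fun i => (hs _).2 (k i), fun u v a1 _ h => ?_,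
      fun u v a1 a2 => (hR _ _).2 (.inl (h _ ((p2 _).1 a1) _ ((p3 _).1 a2)))⟩
    · obtain ⟨v, hv⟩ := card_pos.1 (hK.trans_le (k i))
      exact ⟨v, (mem_filter.1 hv).2⟩
    · have := mem_Ico.1 ((p0 u).1 a1)
      rcases (hR _ _).1 h with h | h <;> have := h1 _ _ h <;> omega

abbrev I := List Unit × List (ℕ × ℕ) × ℕ
def nn (a : I) : ℕ := a.1.length
def mm (a : I) : ℕ := a.2.1.length
def kk (a : I) : ℕ := min a.2.2 (nn a + 1)
def aa (a : I) : ℕ := kk a * (kk a - 1) / 2 + (kk a - nn a)
def KK (a : I) : ℕ := aa a + nn a + mm a + 1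
def x1 (a : I) : ℕ := mm a + (nn a + mm a + 1)
def y1 (a : I) : ℕ := x1 a + nn a + (KK a - (nn a - kk a))
def R (a : I) (u v : ℕ) : Prop := u < x1 a ∧ x1 a ≤ v ∧ v < y1 a ∧
  (u < mm a → v ≠ x1 a + (a.2.1.getD u (0, 0)).1 ∧ v ≠ x1 a + (a.2.1.getD u (0, 0)).2)
instance (a u v) : Decidable (R a u v) := by unfold R; infer_instance
def red (c : ℚ) (a : I) : Gr := (List.replicate (c.num.toNat * KK a / c.den) (),
  (List.range (y1 a) ×ˢ List.range (y1 a)).filter fun e => R a e.1 e.2)

theorem adj (c : ℚ) (a : I) (u v : Fin (red c a).n) : (red c a).G.Adj u v ↔ R a u v ∨ R a v u := by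
  have : ∀ u v, (u, v) ∈ (red c a).2 ↔ R a u v := fun u v => by
    simp only [red, List.mem_filter, List.mem_product, List.mem_range, decide_eq_true_eq, and_iff_right_iff_imp, R]
    omega
  rw [Gr.adj_iff, this, this, and_iff_right_iff_imp]
  unfold R; omega

theorem perf (c : ℚ) (a : I) : Perfect (red c a).G :=
  perfect_of ⟨SimpleGraph.Coloring.mk (fun v => if v.1 < x1 a then 0 else 1) fun {u v} h => by
    rw [adj] at h; unfold R at h; split_ifs <;> omega⟩

theorem key (n : List Unit) (es : List (ℕ × ℕ)) (k : ℕ) (h1 : ∀ e ∈ es, e.1 < e.2 ∧ e.2 < n.length) (h2 : es.Nodup)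
    (h3 : k ≤ n.length + 1) :
    (∃ S : Finset ℕ, (∀ x ∈ S, x < n.length) ∧ (∀ x ∈ S, ∀ y ∈ S, x < y → (x, y) ∈ es) ∧ S.card = k) ↔
      ∃ C D : Finset ℕ, KK (n, es, k) ≤ C.card ∧ KK (n, es, k) ≤ D.card ∧ ∀ u ∈ C, ∀ v ∈ D, R (n, es, k) u v := by
  have ek : kk (n, es, k) = k := min_eq_left h3
  have ea : aa (n, es, k) = k.choose 2 + (k - n.length) := by rw [aa, ek, Nat.choose_two_right]; rfl
  have eK : KK (n, es, k) = k.choose 2 + (k - n.length) + n.length + es.length + 1 := by rw [KK, ea]; rfl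
  have ex : x1 (n, es, k) = es.length + (n.length + es.length + 1) := rfl
  have ey : y1 (n, es, k) = x1 (n, es, k) + n.length + (KK (n, es, k) - (n.length - k)) := by rw [y1, ek]; rfl
  have eR : ∀ u v, R (n, es, k) u v ↔ u < x1 (n, es, k) ∧ x1 (n, es, k) ≤ v ∧ v < y1 (n, es, k) ∧ (u < es.length →
    v ≠ x1 (n, es, k) + (es.getD u (0, 0)).1 ∧ v ≠ x1 (n, es, k) + (es.getD u (0, 0)).2) := fun _ _ => .rfl
  simp only [eR]
  generalize KK (n, es, k) = K at *
  generalize y1 (n, es, k) = y at *
  generalize x1 (n, es, k) = x at *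
  clear ek ea eR
  have hm : ∀ u < es.length, es.getD u (0, 0) ∈ es := fun u hu => by
    rw [List.getD_eq_getElem _ _ hu]; exact List.getElem_mem _
  constructor
  · rintro ⟨S, s1, s2, s3⟩
    have s4 : S ⊆ range n.length := fun x hx => mem_range.2 (s1 x hx)
    have s5 : k ≤ n.length := by simpa [s3] using card_le_card s4
    refine ⟨((range es.length).filter fun u => es.getD u (0, 0) ∈ S ×ˢ S) ∪ Ico es.length x,
      (range n.length \ S).map (addLeftEmbedding x) ∪ Ico (x + n.length) y, ?_, ?_, fun u hu v hv => ?_⟩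
    · rw [card_union_of_disjoint (by simp [disjoint_left]; omega), Nat.card_Ico]
      have := card_le_card_of_surjOn (s := (range es.length).filter fun u => es.getD u (0, 0) ∈ S ×ˢ S)
        (t := (S ×ˢ S).filter fun e => e.1 < e.2) (fun u => es.getD u (0, 0)) fun e he => by
          simp only [coe_filter, mem_product, Set.mem_ofPred_eq] at he
          obtain ⟨u, hu, rfl⟩ := List.getElem_of_mem (show e ∈ es from s2 _ he.1.1 _ he.1.2 he.2)
          exact ⟨u, by simpa [hu] using he.1, by simp [hu]⟩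
      rw [card_product_filter_lt, s3] at this
      omega
    · rw [card_union_of_disjoint (by simp [disjoint_left]; omega), Nat.card_Ico, card_map, card_sdiff_of_subset s4]
      simp only [card_range]; omega
    · simp only [mem_union, mem_filter, mem_range, mem_product, mem_Ico, mem_map, mem_sdiff,
        addLeftEmbedding_apply] at hu hv
      rcases hv with ⟨w, ⟨w1, w2⟩, rfl⟩ | hv
      · refine ⟨by omega, by omega, by omega, fun h => ?_⟩
        rcases hu with hu | hu
        · exact ⟨fun e => w2 (Nat.add_left_cancel e ▸ hu.2.1), fun e => w2 (Nat.add_left_cancel e ▸ hu.2.2)⟩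
        · omega
      · exact ⟨by omega, by omega, by omega, fun h => by have := h1 _ (hm u h); omega⟩
  · rintro ⟨C, D, c1, d1, h⟩
    obtain ⟨u0, hu⟩ : C.Nonempty := card_pos.1 (by omega)
    obtain ⟨v0, hv⟩ : D.Nonempty := card_pos.1 (by omega)
    let W := (range n.length).filter fun w => x + w ∉ D
    have w1 : W.card ≤ k := by
      have a1 := card_le_card (s := D) (t := (range n.length \ W).map (addLeftEmbedding x) ∪ Ico (x + n.length) y)
        fun v hv => by
          have := h u0 hu v hv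
          simp only [mem_union, mem_map, mem_sdiff, mem_range, addLeftEmbedding_apply, mem_Ico, W, mem_filter]
          by_cases a : v < x + n.length
          · refine .inl ⟨v - x, ⟨by omega, ?_⟩, by omega⟩
            rw [show x + (v - x) = v by omega]; simp [hv]
          · omega
      have a2 := a1.trans (card_union_le _ _)
      have a3 : W.card ≤ n.length := by simpa using card_filter_le (range n.length) _
      rw [Nat.card_Ico, card_map, card_sdiff_of_subset (show W ⊆ _ from filter_subset _ _), card_range] at a2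
      omega
    let T := ((W ×ˢ W).filter fun e => e.1 < e.2).filter (· ∈ es)
    have t1 : k.choose 2 + (k - n.length) ≤ T.card := by
      have a1 := card_le_card (s := C) (t := C.filter (· < es.length) ∪ Ico es.length x) fun u hu => by
        have := h u hu v0 hv
        simp only [mem_union, mem_filter, mem_Ico, hu, true_and]; omega
      have a2 := a1.trans (card_union_le _ _)
      have a3 := card_le_card_of_injOn (s := C.filter (· < es.length)) (t := T) (fun u => es.getD u (0, 0))
        (fun u hu => by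
          simp only [coe_filter, Set.mem_ofPred_eq] at hu
          have b1 := h1 _ (hm u hu.2)
          simp only [T, W, coe_filter, mem_filter, mem_product, mem_range, Set.mem_ofPred_eq]
          exact ⟨⟨⟨⟨by omega, fun e => ((h u hu.1 _ e).2.2.2 hu.2).1 rfl⟩, b1.2,
            fun e => ((h u hu.1 _ e).2.2.2 hu.2).2 rfl⟩, b1.1⟩, hm u hu.2⟩)
        fun u hu v hv e => by
          simp only [coe_filter, Set.mem_ofPred_eq] at hu hv e
          rwa [List.getD_eq_getElem _ _ hu.2, List.getD_eq_getElem _ _ hv.2, h2.getElem_inj_iff] at e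
      rw [Nat.card_Ico] at a2
      omega
    have t2 : T.card ≤ W.card.choose 2 := by rw [← card_product_filter_lt]; exact card_filter_le _ _
    have t3 := Nat.choose_le_choose 2 w1
    rcases w1.lt_or_eq with w2 | w2
    · obtain ⟨j, rfl⟩ : ∃ j, k = j + 1 := ⟨k - 1, by omega⟩
      have := Nat.choose_le_choose 2 (show W.card ≤ j by omega)
      have t4 : (j + 1).choose 2 = j + j.choose 2 := by simp [Nat.choose_succ_succ']
      obtain rfl : j = 0 := by omega
      exact ⟨{0}, by simp; omega, by simp, rfl⟩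
    · refine ⟨W, fun x hx => mem_range.1 (mem_filter.1 hx).1, fun a ha b hb hab => ?_, w2⟩
      have := eq_of_subset_of_card_le (filter_subset (· ∈ es) ((W ×ˢ W).filter fun e => e.1 < e.2))
        (by rw [card_product_filter_lt, w2]; exact le_trans (Nat.le_add_right _ _) t1)
      exact (filter_eq_self.1 this) (a, b) (by simp [ha, hb, hab])

set_option synthInstance.maxSize 2000 in
theorem result : ∀ c : ℚ, 4 ≤ c → NPHard fun a : {a : Gr // Perfect a.G} => Balanced c a.1.G := by
  intro c hc
  have h : PT (red c) := by unfold red R y1 x1 KK aa kk mm nn; fun_prop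
  refine NPHard.of_clique (fun a => ⟨red c a, perf c a⟩) (PT.subtype h (perf c)) fun n es k h1 h2 h3 => ?_
  rw [key n es k h1 h2 h3]
  refine (bal_iff c hc _ _ (y1 (n, es, k)) _ (by unfold KK; omega) ?_ (by simp [red, Gr.n]) (adj c _)
    (by unfold R; omega) (by unfold R; omega)).symm
  have : kk (n, es, k) ≤ nn (n, es, k) + 1 := min_le_right _ _
  unfold y1 x1 KK; omega

end Pool.Agent.Results.MP_447f9a_lc.Hard
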